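import Pool.Agent.H115F.Main

/-!
# Generating flags of flats in a matroid by hyperplanes

For all `m, d ≥ 1`, any `m` complete flags of flats in a finite matroid of rank `d` are generated
by at most `μ(m, d)` hyperplanes.
-/

set_option autoImplicit false

namespace Pool.Agent.Results.MP_449c0f_co.FlagsByHyperplanes

open Set

/-- A hyperplane of `M` is a flat whose rank is one less than the rank of `M`. -/
def IsHyperplane {α : Type*} (M : Matroid α) (H : Set α) : Prop :=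
  M.IsFlat H ∧ M.eRk H + 1 = M.eRank

/-- A complete flag of flats `F_0 ⊂ F_1 ⊂ ... ⊂ F_d = E` with `rank F_i = i`. -/
structure IsCompleteFlag {α : Type*} (M : Matroid α) (d : ℕ) (F : Fin (d + 1) → Set α) : Prop where
  isFlat : ∀ i, M.IsFlat (F i)
  rank_eq : ∀ i, M.eRk (F i) = ((i : ℕ) : ℕ∞)
  strictMono : StrictMono F
  last_eq : F (Fin.last d) = M.E

/-- The family `𝓗` generates the flag `F`: every `F_i` is the intersection of some subfamily of
`𝓗`, where the empty intersection is the ground set. -/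
def Generates {α : Type*} (M : Matroid α) {d : ℕ} (𝓗 : Set (Set α)) (F : Fin (d + 1) → Set α) :
    Prop :=
  ∀ i, ∃ 𝓢 ⊆ 𝓗, F i = M.E ∩ ⋂₀ 𝓢

/-- The value `μ(m, d)`. -/
noncomputable def mu (m d : ℕ) : ℚ :=
  if m = 1 ∨ d = 1 then d
  else if Even m then (m : ℚ) * d / 2
  else (m : ℚ) * d / 2 + (⌊(2 * d / 3 : ℚ)⌋ : ℚ) - d / 2

open Pool.Agent.H115F in
/-- From a complete flag to flag data. -/
theorem exists_flagData {α : Type*} {M : Matroid α} [M.Finite] {d : ℕ} (hd : 1 ≤ d)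
    {F : Fin (d + 1) → Set α} (hF : IsCompleteFlag M d F) :
    ∃ (F' : ℕ → Set α) (x : ℕ → α), FlagData M d F' x ∧ ∀ i : Fin (d + 1), F' i = F i := by
  classical
  have hsub : ∀ i, F i ⊆ M.E := fun i => (hF.isFlat i).subset_ground
  have hex : ∀ i : Fin d, ∃ y, y ∈ F i.succ ∧ y ∉ F i.castSucc := by
    intro i
    have := hF.strictMono (Fin.castSucc_lt_succ (i := i))
    exact exists_of_ssubset this
  choose y hy1 hy2 using hex
  let F' : ℕ → Set α := fun i => if h : i < d + 1 then F ⟨i, h⟩ else M.E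
  let x : ℕ → α := fun i => if h : i < d then y ⟨i, h⟩ else y ⟨0, by omega⟩
  have hF' : ∀ i (h : i < d + 1), F' i = F ⟨i, h⟩ := fun i h => dif_pos h
  have hx : ∀ i (h : i < d), x i = y ⟨i, h⟩ := fun i h => dif_pos h
  refine ⟨F', x, ⟨?_, ?_, ?_, ?_, ?_⟩, fun i => hF' i i.2⟩
  · rw [hF' 0 (by omega)]
    have h0 := hF.rank_eq ⟨0, by omega⟩
    have h1 : M.eRk (F ⟨0, by omega⟩) = 0 := by simpa using h0
    rw [Matroid.eRk_eq_zero_iff (hsub _)] at h1
    apply subset_antisymm h1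
    rw [← (hF.isFlat ⟨0, by omega⟩).closure]
    exact M.closure_subset_closure (empty_subset _)
  · rw [hF' d (by omega)]
    exact hF.last_eq
  · intro i hi
    rw [hx i hi]
    exact hsub _ (hy1 ⟨i, hi⟩)
  · intro i hi
    rw [hx i hi, hF' i (by omega)]
    exact hy2 ⟨i, hi⟩
  · intro i hi
    rw [hx i hi, hF' i (by omega), hF' (i + 1) (by omega)]
    have hss : insert (y ⟨i, hi⟩) (F ⟨i, by omega⟩) ⊆ F ⟨i + 1, by omega⟩ := by
      apply insert_subset (hy1 ⟨i, hi⟩)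
      exact hF.strictMono.monotone (Fin.mk_le_mk.2 (by omega))
    have hr : M.eRk (F ⟨i + 1, by omega⟩) ≤ M.eRk (insert (y ⟨i, hi⟩) (F ⟨i, by omega⟩)) := by
      rw [Matroid.eRk_insert_eq_add_one, hF.rank_eq, hF.rank_eq]
      · simp
      · refine ⟨hsub _ (hy1 ⟨i, hi⟩), ?_⟩
        rw [(hF.isFlat _).closure]
        exact hy2 ⟨i, hi⟩
    rw [(M.isRkFinite_set _).closure_eq_closure_of_subset_of_eRk_ge_eRk hss hr,
      (hF.isFlat _).closure]

open Pool.Agent.H115F in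
/-- **Answer to Q1 (positive).** -/
theorem result : ∀ (m d : ℕ), 1 ≤ m → 1 ≤ d →
    ∀ (α : Type*) (M : Matroid α), M.E.Finite → M.eRank = (d : ℕ∞) →
      ∀ F : Fin m → Fin (d + 1) → Set α, (∀ j, IsCompleteFlag M d (F j)) →
        ∃ 𝓗 : Finset (Set α), (∀ H ∈ 𝓗, IsHyperplane M H) ∧ (𝓗.card : ℚ) ≤ mu m d ∧
          ∀ j, Generates M (𝓗 : Set (Set α)) (F j) := by
  classical
  intro m d hm hd α M hfin hrank F hF
  have : M.Finite := ⟨hfin⟩
  have hfd := fun j => exists_flagData hd (hF j)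
  choose F' x hFD hF' using hfd
  -- flags indexed by natural numbers
  let F'' : ℕ → ℕ → Set α := fun j => if h : j < m then F' ⟨j, h⟩ else F' ⟨0, by omega⟩
  let x'' : ℕ → ℕ → α := fun j => if h : j < m then x ⟨j, h⟩ else x ⟨0, by omega⟩
  have eF : ∀ j : Fin m, F'' j = F' j := fun j => dif_pos j.2
  have ex : ∀ j : Fin m, x'' j = x j := fun j => dif_pos j.2
  have hFD' : ∀ j, j < m → FlagData M d (F'' j) (x'' j) := by
    intro j hj
    have h1 := hFD ⟨j, hj⟩
    rw [← eF ⟨j, hj⟩, ← ex ⟨j, hj⟩] at h1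
    exact h1
  -- it suffices to cover
  suffices h : ∃ 𝓗 : Finset (Set α), (∀ H ∈ 𝓗, Hyp M H) ∧ (𝓗.card : ℚ) ≤ mu m d ∧
      ∀ j, j < m → CovFlag d (F'' j) (x'' j) 𝓗 by
    obtain ⟨𝓗, h1, h2, h3⟩ := h
    refine ⟨𝓗, h1, h2, ?_⟩
    intro j i
    have hg := generates (hFD' j j.2) h1 (h3 j j.2) (d - i) (by omega)
    have he : d - (d - (i : ℕ)) = i := by have := i.2; omega
    rw [he, eF j, hF' j i] at hg
    exact ⟨_, fun H hH => hH.1, hg⟩
  by_cases h1 : m = 1
  · subst h1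
    obtain ⟨𝓗, a1, a2, a3⟩ := cov_one (hFD' 0 (by omega))
    refine ⟨𝓗, a1, ?_, ?_⟩
    · rw [mu, if_pos (Or.inl rfl)]
      exact_mod_cast a2
    · intro j hj
      have : j = 0 := by omega
      subst this
      exact a3
  by_cases h2 : d = 1
  · subst h2
    refine ⟨{M.closure ∅}, ?_, ?_, ?_⟩
    · intro H hH
      rw [Finset.mem_singleton] at hH
      subst hH
      refine ⟨M.isFlat_closure _, ?_⟩
      rw [M.eRk_closure_eq, M.eRk_empty, hrank]
      simp
    · rw [mu, if_pos (Or.inr rfl)]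
      simp
    · intro j hj i hi
      have hi0 : i = 0 := by omega
      subst hi0
      refine ⟨_, Finset.mem_singleton_self _, ?_, ?_⟩
      · rw [(hFD' j hj).zero]
      · rw [← (hFD' j hj).zero]
        exact (hFD' j hj).notMem 0 hi
  by_cases hev : Even m
  · obtain ⟨k, hk⟩ := hev
    obtain ⟨𝓗, a1, a2, a3⟩ := cov_even (M := M) (d := d) (F := F'') (x := x'') k 0
      (fun j _ hj => hFD' j (by omega))
    refine ⟨𝓗, a1, ?_, ?_⟩
    · rw [mu, if_neg (by push Not; exact ⟨h1, h2⟩), if_pos ⟨k, hk⟩, hk]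
      have h3 : (𝓗.card : ℚ) ≤ (k : ℚ) * d := by exact_mod_cast a2
      push_cast
      linarith
    · intro j hj
      exact a3 j (by omega) (by omega)
  · rw [Nat.not_even_iff_odd] at hev
    obtain ⟨k', hk'⟩ := hev
    obtain ⟨k, rfl⟩ : ∃ k, k' = k + 1 := ⟨k' - 1, by omega⟩
    obtain ⟨𝓗, a1, a2, a3⟩ := cov_odd (M := M) (d := d) (F := F'') (x := x'') k
      (fun j hj => hFD' j (by omega))
    refine ⟨𝓗, a1, ?_, ?_⟩
    · rw [mu, if_neg (by push Not; exact ⟨h1, h2⟩), if_neg (by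
        rw [Nat.not_even_iff_odd]; exact ⟨k + 1, hk'⟩), hk']
      obtain ⟨n, hn⟩ : ∃ n, n = 2 * d / 3 := ⟨_, rfl⟩
      have h3 : 𝓗.card ≤ k * d + d + n := by omega
      have h4 : (𝓗.card : ℚ) ≤ (k : ℚ) * d + d + (n : ℚ) := by exact_mod_cast h3
      have h6 : 3 * n ≤ 2 * d := by omega
      have h5 : (n : ℤ) ≤ ⌊(2 * d / 3 : ℚ)⌋ := by
        rw [Int.le_floor]
        have h7 : (3 : ℚ) * (n : ℚ) ≤ 2 * d := by exact_mod_cast h6
        rw [le_div_iff₀ (by norm_num)]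
        push_cast
        linarith
      have h8 : (n : ℚ) ≤ (⌊(2 * d / 3 : ℚ)⌋ : ℚ) := by exact_mod_cast h5
      push_cast
      linarith
    · intro j hj
      exact a3 j (by omega)

end Pool.Agent.Results.MP_449c0f_co.FlagsByHyperplanes
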